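import Pool.Agent.N869.GK.D.Stm
import Pool.Agent.W313.BMX.Alg

/-!
# Project GK, piece D-W0: the group of the local conditions at the bad places
-/

set_option autoImplicit false
set_option linter.unusedVariables false

open scoped Classical

namespace Pool.Agent.N3.GK.W0

open Finset
open Pool.Agent.TH841.SH (LocC)
open Pool.Agent.W313.BMX (Splits splits_mul_sq splits_comm)
open Pool.Agent.N869.GK Pool.Agent.N869.GK.D

theorem sq_cast {K : Type} [Field K] {n : ℤ} (h : IsSquare n) : IsSquare ((n : ℤ) : K) := by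
  obtain ⟨s, hs⟩ := h
  exact ⟨(s : K), by rw [hs]; push_cast; ring⟩

/-- the facts on the classes -/
structure Cl {r : ℕ} (b : Finset ℕ) (g : Fin r → ℤ) : Prop where
  ne : ∀ x, rep g x ≠ 0
  mul : ∀ x y, IsSquare (rep g x * rep g y * rep g (x + y))
  inj : ∀ x y, IsSquare (rep g x * rep g y) → x = y
  cl : ∀ n : ℤ, n ≠ 0 → (∀ p : ℕ, p.Prime → (p : ℤ) ∣ n → p = 2 ∨ p ∈ b) →
      IsSquare (n * rep g (ecl g n))

theorem cl_of (h : S_GEN) {b : Finset ℕ} {r : ℕ} {g : Fin r → ℤ} (hg : Gen b g) : Cl b g := by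
  obtain ⟨h1, _, h3, h4, h5⟩ := h.2 b r g hg
  exact ⟨fun x => (h1 x).ne_zero, h3, h4, h5⟩

/-- the facts on the labels, over a field `K` -/
structure Lb {r : ℕ} (b : Finset ℕ) (g : Fin r → ℤ) (K : Type) [Field K] : Prop where
  mul : ∀ u w : ℕ, u.Coprime (MM b) → w.Coprime (MM b) → lam g (u * w) = lam g u + lam g w
  ex : ∀ π : Gr r, ∃ a : ℕ, a.Coprime (MM b) ∧ lam g a = π
  sq : ∀ n : ℕ, n.Coprime (MM b) → lam g n = 0 → IsSquare ((n : ℤ) : K)

theorem ne_of_cop {b : Finset ℕ} {u : ℕ} (h : u.Coprime (MM b)) (hb : MM b ≠ 1) : (u : ℤ) ≠ 0 := by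
  intro h0
  have : u = 0 := by exact_mod_cast h0
  rw [this, Nat.coprime_zero_left] at h
  exact hb h

theorem MM_ne (b : Finset ℕ) : MM b ≠ 1 := by
  intro h
  unfold MM at h
  have : 8 ∣ 1 := ⟨_, h.symm⟩
  omega

/-- admissible pairs -/
def Adm {r : ℕ} (b : Finset ℕ) (g : Fin r → ℤ) (X : Hr r) (u : Fin 2 → ℕ) : Prop :=
  ∀ c, (u c).Coprime (MM b) ∧ lam g (u c) = X.2 c

/-- the local condition at one place -/
def LK {r : ℕ} (b : Finset ℕ) (e1 e2 e3 : ℤ) (g : Fin r → ℤ) (K : Type) [Field K] (X : Hr r) :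
    Prop :=
  ∀ u : Fin 2 → ℕ, Adm b g X u → LocC K e1 e2 e3 (rep g (X.1 0) * u 0) (rep g (X.1 1) * u 1)

theorem inW_iff {r : ℕ} (b : Finset ℕ) (e1 e2 e3 : ℤ) (g : Fin r → ℤ) (X : Hr r) :
    InW b e1 e2 e3 g X ↔ LK b e1 e2 e3 g ℝ X ∧
      ∀ (p : ℕ) [Fact p.Prime], p ∣ MM b → LK b e1 e2 e3 g ℚ_[p] X := by
  unfold InW LK LS Adm
  constructor
  · intro h
    exact ⟨fun u hu => (h u hu).1, fun p _ hp u hu => (h u hu).2 p hp⟩
  · intro h u hu
    exact ⟨h.1 u hu, fun p _ hp => h.2 p hp u hu⟩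

theorem adm_ex {r : ℕ} {b : Finset ℕ} {g : Fin r → ℤ} {K : Type} [Field K] (hl : Lb b g K)
    (X : Hr r) : ∃ u, Adm b g X u := by
  choose u hu using fun c => hl.ex (X.2 c)
  exact ⟨u, hu⟩

theorem two_add {r : ℕ} (x : Gr r) : x + x = 0 := by
  funext i
  exact CharTwo.add_self_eq_zero _

section K

variable {r : ℕ} {b : Finset ℕ} {g : Fin r → ℤ} {e1 e2 e3 : ℤ} {K : Type} [Field K]

theorem lk_add (hc : Cl b g) (hl : Lb b g K) (hG : GrpK K e1 e2 e3) {X Y : Hr r}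
    (hX : LK b e1 e2 e3 g K X) (hY : LK b e1 e2 e3 g K Y) : LK b e1 e2 e3 g K (X + Y) := by
  intro u hu
  obtain ⟨v, hv⟩ := adm_ex hl X
  obtain ⟨w, hw⟩ := adm_ex hl Y
  have key : ∀ c, IsSquare ((((rep g (X.1 c) * v c) * (rep g (Y.1 c) * w c)) *
      (rep g ((X + Y).1 c) * u c) : ℤ) : K) := by
    intro c
    have h1 : IsSquare ((((v c * w c * u c : ℕ) : ℤ)) : K) := by
      refine hl.sq _ (((hv c).1.mul_left (hw c).1).mul_left (hu c).1) ?_
      rw [hl.mul _ _ ((hv c).1.mul_left (hw c).1) (hu c).1, hl.mul _ _ (hv c).1 (hw c).1,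
        (hv c).2, (hw c).2, (hu c).2]
      exact two_add _
    have h2 : IsSquare ((rep g (X.1 c) * rep g (Y.1 c) * rep g (X.1 c + Y.1 c) : ℤ) : K) :=
      sq_cast (hc.mul _ _)
    have h3 := h2.mul h1
    have h4 : (X + Y).1 c = X.1 c + Y.1 c := rfl
    rw [h4]
    have h5 : ((((rep g (X.1 c) * v c) * (rep g (Y.1 c) * w c)) *
        (rep g (X.1 c + Y.1 c) * u c) : ℤ) : K) =
        ((rep g (X.1 c) * rep g (Y.1 c) * rep g (X.1 c + Y.1 c) : ℤ) : K) *
        (((v c * w c * u c : ℕ) : ℤ) : K) := by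
      push_cast
      ring
    rw [h5]
    exact h3
  have n1 : ∀ c, rep g (X.1 c) * v c ≠ 0 := fun c => mul_ne_zero (hc.ne _)
    (ne_of_cop (hv c).1 (MM_ne b))
  have n2 : ∀ c, rep g (Y.1 c) * w c ≠ 0 := fun c => mul_ne_zero (hc.ne _)
    (ne_of_cop (hw c).1 (MM_ne b))
  have n3 : ∀ c, rep g ((X + Y).1 c) * u c ≠ 0 := fun c => mul_ne_zero (hc.ne _)
    (ne_of_cop (hu c).1 (MM_ne b))
  exact hG.cls _ _ _ _ (mul_ne_zero (n1 0) (n2 0)) (mul_ne_zero (n1 1) (n2 1)) (n3 0) (n3 1)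
    (key 0) (key 1) (hG.mul _ _ _ _ (n1 0) (n1 1) (n2 0) (n2 1) (hX v hv) (hY w hw))

/-- classes with label zero -/
theorem lk_of (hc : Cl b g) (hl : Lb b g K) (hG : GrpK K e1 e2 e3) {m n : ℤ} (hm : m ≠ 0)
    (hn : n ≠ 0) (h : LocC K e1 e2 e3 m n) {x y : Gr r} (hx : IsSquare (m * rep g x))
    (hy : IsSquare (n * rep g y)) : LK b e1 e2 e3 g K ((![x, y], 0) : Hr r) := by
  intro u hu
  have hz : ∀ c, lam g (u c) = 0 := fun c => (hu c).2
  have key : ∀ (k : ℤ) (z : Gr r) (c : Fin 2), IsSquare (k * rep g z) →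
      IsSquare ((k * (rep g z * u c) : ℤ) : K) := by
    intro k z c hk
    have h1 : IsSquare (((u c : ℕ) : ℤ) : K) := hl.sq _ (hu c).1 (hz c)
    have h3 := (sq_cast (K := K) hk).mul h1
    have h5 : ((k * (rep g z * u c) : ℤ) : K) = ((k * rep g z : ℤ) : K) * (((u c : ℕ) : ℤ) : K) := by
      push_cast
      ring
    rw [h5]
    exact h3
  have n3 : ∀ (z : Gr r) (c : Fin 2), rep g z * (u c : ℤ) ≠ 0 := fun z c =>
    mul_ne_zero (hc.ne _) (ne_of_cop (hu c).1 (MM_ne b))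
  exact hG.cls _ _ _ _ hm hn (n3 x 0) (n3 y 1) (key m x 0 hx) (key n y 1 hy) h

end K

theorem rep_zero {r : ℕ} (g : Fin r → ℤ) : rep g 0 = 1 := by
  unfold rep
  refine Finset.prod_eq_one (fun i _ => ?_)
  simp

theorem neg_eq {r : ℕ} (X : Hr r) : -X = X := by
  refine Prod.ext ?_ ?_ <;> funext c i
  · change -(X.1 c i) = X.1 c i
    exact ZMod.neg_eq_self_mod_two _
  · change -(X.2 c i) = X.2 c i
    exact ZMod.neg_eq_self_mod_two _

/-! ### Hilbert symbols and squares -/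

theorem splits_cls {K : Type} [Field K] [CharZero K] {m n n' : ℤ} (hn : n ≠ 0) (hn' : n' ≠ 0)
    (h : IsSquare (n * n')) : Splits (m : K) (n : K) ↔ Splits (m : K) (n' : K) := by
  obtain ⟨s, hs⟩ := h
  have hnK : (n : K) ≠ 0 := by exact_mod_cast hn
  have hnK' : (n' : K) ≠ 0 := by exact_mod_cast hn'
  have hs0 : (s : K) ≠ 0 := by
    intro h0
    have : s = 0 := by exact_mod_cast h0
    rw [this] at hs
    exact (mul_ne_zero hn hn') (by rw [hs]; ring)
  have h1 : (n' : K) = (n : K) * ((s : K) / n) ^ 2 := by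
    have h2 : (n : K) * n' = s * s := by exact_mod_cast hs
    field_simp
    linear_combination h2
  rw [splits_comm, splits_comm (a := (m : K)) (b := (n' : K)), h1,
    splits_mul_sq (div_ne_zero hs0 hnK)]

theorem HS_cls (M : ℕ) {m n n' : ℤ} (hn : n ≠ 0) (hn' : n' ≠ 0) (h : IsSquare (n * n')) :
    HS M m n = HS M m n' := by
  unfold HS
  have h1 : hR m n = hR m n' := by
    unfold hR
    rw [if_congr (splits_cls hn hn' h) rfl rfl]
  have h2 : ∀ p, hQ p m n = hQ p m n' := by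
    intro p
    unfold hQ
    by_cases hp : p.Prime
    · rw [dif_pos hp, dif_pos hp]
      unfold hP
      haveI : Fact p.Prime := ⟨hp⟩
      rw [if_congr (splits_cls hn hn' h) rfl rfl]
    · rw [dif_neg hp, dif_neg hp]
  rw [h1]
  congr 1
  exact Finset.sum_congr rfl (fun p _ => h2 p)

theorem lam_one {r : ℕ} (g : Fin r → ℤ) : lam g 1 = 0 := by
  funext i
  unfold lam
  simp

theorem dot_zero {r : ℕ} (x : Gr r) : dot x 0 = 0 := by
  unfold dot
  simp

theorem t_W0 : S_W0 := by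
  intro hGEN hLAB hHS hQV hLCG b e1 e2 e3 r g hg hcrv
  have hc := cl_of hGEN hg
  obtain ⟨l1, l2, l3, l4, l5, l6, l7⟩ := hLAB hGEN b r g hg
  have hex : ∀ π : Gr r, ∃ a : ℕ, a.Coprime (MM b) ∧ lam g a = π := by
    intro π
    obtain ⟨a, ha, h⟩ := l2 π
    exact ⟨a, ha, h a rfl⟩
  have hlR : Lb b g ℝ := ⟨l1, hex, fun n hn h0 => (l7 n hn h0).1⟩
  have hlp : ∀ (p : ℕ) [Fact p.Prime], p ∣ MM b → Lb b g ℚ_[p] := fun p _ hp =>
    ⟨l1, hex, fun n hn h0 => (l7 n hn h0).2 p hp⟩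
  obtain ⟨gR, gp⟩ := hLCG e1 e2 e3 hcrv.h12 hcrv.h13 hcrv.h23
  have h12 : e1 - e2 ≠ 0 := sub_ne_zero.2 hcrv.h12
  have h21 : e2 - e1 ≠ 0 := sub_ne_zero.2 hcrv.h12.symm
  have h13 : e1 - e3 ≠ 0 := sub_ne_zero.2 hcrv.h13
  have h23 : e2 - e3 ≠ 0 := sub_ne_zero.2 hcrv.h23
  -- prime divisors
  have pd : ∀ n : ℤ, (∀ p : ℕ, p.Prime → (p : ℤ) ∣ n → (p : ℤ) ∣ (e1 - e2) * (e1 - e3) * (e2 - e3)) →
      ∀ p : ℕ, p.Prime → (p : ℤ) ∣ n → p = 2 ∨ p ∈ b := by
    intro n h p hp hpn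
    by_cases h2 : p = 2
    · exact Or.inl h2
    · exact Or.inr ((hcrv.mem p).2 ⟨hp, h2, h p hp hpn⟩)
  have c12 : IsSquare ((e1 - e2) * rep g (ecl g (e1 - e2))) := hc.cl _ h12 (pd _ (by
    intro p hp h
    exact Dvd.dvd.mul_right (Dvd.dvd.mul_right h _) _))
  have caa : IsSquare ((e1 - e2) * (e1 - e3) * rep g (ecl g ((e1 - e2) * (e1 - e3)))) :=
    hc.cl _ (mul_ne_zero h12 h13) (pd _ (by
      intro p hp h
      exact Dvd.dvd.mul_right h _))
  have cbb : IsSquare ((e2 - e1) * (e2 - e3) * rep g (ecl g ((e2 - e1) * (e2 - e3)))) :=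
    hc.cl _ (mul_ne_zero h21 h23) (pd _ (by
      intro p hp h
      have h' : (p : ℤ) ∣ (e1 - e2) * (e2 - e3) := by
        have : (e1 - e2) * (e2 - e3) = -((e2 - e1) * (e2 - e3)) := by ring
        rw [this]
        exact (dvd_neg).2 h
      have h'' : (e1 - e2) * (e1 - e3) * (e2 - e3) = (e1 - e2) * (e2 - e3) * (e1 - e3) := by ring
      rw [h'']
      exact Dvd.dvd.mul_right h' _))
  have cem : IsSquare ((-1) * rep g (ecl g (-1))) := hc.cl _ (by norm_num) (by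
    intro p hp h
    exfalso
    have h1 : (p : ℤ) ∣ 1 := (dvd_neg).1 h
    have h2 : p ∣ 1 := by exact_mod_cast h1
    exact hp.one_lt.ne' (Nat.dvd_one.1 h2))
  have c21 : IsSquare ((e2 - e1) * rep g (ecl g (e1 - e2) + ecl g (-1))) := by
    obtain ⟨s1, hs1⟩ := c12
    obtain ⟨s2, hs2⟩ := cem
    obtain ⟨s3, hs3⟩ := hc.mul (ecl g (e1 - e2)) (ecl g (-1))
    set A := rep g (ecl g (e1 - e2)) with hA
    set B := rep g (ecl g (-1)) with hB
    set C := rep g (ecl g (e1 - e2) + ecl g (-1)) with hC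
    have hAB : A * B ≠ 0 := mul_ne_zero (hc.ne _) (hc.ne _)
    have h1 : (e2 - e1) * C * (A * B) ^ 2 = (s1 * s2 * s3) ^ 2 := by
      have : (s1 * s2 * s3) ^ 2 = (s1 * s1) * (s2 * s2) * (s3 * s3) := by ring
      rw [this, ← hs1, ← hs2, ← hs3]
      ring
    have h2 : (A * B) ^ 2 ∣ (s1 * s2 * s3) ^ 2 := ⟨(e2 - e1) * C, by rw [← h1]; ring⟩
    rw [Int.pow_dvd_pow_iff two_ne_zero] at h2
    obtain ⟨t, ht⟩ := h2
    refine ⟨t, ?_⟩
    have h3 : (e2 - e1) * C * (A * B) ^ 2 = t * t * (A * B) ^ 2 := by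
      rw [h1, ht]; ring
    exact mul_right_cancel₀ (pow_ne_zero 2 hAB) h3
  -- the group
  let W : AddSubgroup (Hr r) :=
    { carrier := {X | InW b e1 e2 e3 g X}
      add_mem' := by
        intro X Y hX hY
        rw [Set.mem_ofPred_eq, inW_iff] at *
        exact ⟨lk_add hc hlR gR hX.1 hY.1,
          fun p _ hp => lk_add hc (hlp p hp) (gp p) (hX.2 p hp) (hY.2 p hp)⟩
      zero_mem' := by
        rw [Set.mem_ofPred_eq, inW_iff]
        have h0 : (0 : Hr r) = ((![0, 0], 0) : Hr r) := by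
          refine Prod.ext ?_ rfl
          funext c
          fin_cases c <;> rfl
        rw [h0]
        have hs : IsSquare ((1 : ℤ) * rep g 0) := by
          rw [rep_zero]
          exact ⟨1, by norm_num⟩
        exact ⟨lk_of hc hlR gR one_ne_zero one_ne_zero gR.one hs hs,
          fun p _ hp => lk_of hc (hlp p hp) (gp p) one_ne_zero one_ne_zero (gp p).one hs hs⟩
      neg_mem' := by
        intro X hX
        rw [neg_eq]
        exact hX }
  have hW : ∀ X, X ∈ W ↔ InW b e1 e2 e3 g X := fun X => Iff.rfl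
  refine ⟨W, hW, ?_, ?_, ?_⟩
  · intro X hX
    rw [hW] at hX
    obtain ⟨u, hu⟩ := adm_ex hlR X
    have hLS := hX u hu
    set m := rep g (X.1 0) * (u 0 : ℤ) with hm
    set n := rep g (X.1 1) * (u 1 : ℤ) with hn
    have hm0 : m ≠ 0 := mul_ne_zero (hc.ne _) (ne_of_cop (hu 0).1 (MM_ne b))
    have hn0 : n ≠ 0 := mul_ne_zero (hc.ne _) (ne_of_cop (hu 1).1 (MM_ne b))
    have hq := hQV e1 e2 e3 m n hcrv.h12 hm0 hn0
    have hsum : HS (MM b) m n + HS (MM b) m (e1 - e2) + HS (MM b) n (e2 - e1) = 0 := by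
      have e0 : HS (MM b) m n + HS (MM b) m (e1 - e2) + HS (MM b) n (e2 - e1) =
          (hR m n + hR m (e1 - e2) + hR n (e2 - e1)) + ∑ p ∈ (MM b).primeFactors,
            (hQ p m n + hQ p m (e1 - e2) + hQ p n (e2 - e1)) := by
        unfold HS
        rw [Finset.sum_add_distrib, Finset.sum_add_distrib]
        ring
      rw [e0, hq.1 hLS.1, zero_add]
      refine Finset.sum_eq_zero (fun p hp => ?_)
      have hpp : p.Prime := Nat.prime_of_mem_primeFactors hp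
      have hpd : p ∣ MM b := Nat.dvd_of_mem_primeFactors hp
      unfold hQ
      rw [dif_pos hpp, dif_pos hpp, dif_pos hpp]
      haveI : Fact p.Prime := ⟨hpp⟩
      exact hq.2 p (hLS.2 p hpd)
    have s1 : HS (MM b) m n = dot (X.1 0) (lam g (u 1)) + dot (X.1 1) (lam g (u 0)) +
        dot (ecl g (-1)) (lam g (u 0)) * dot (ecl g (-1)) (lam g (u 1)) :=
      hHS hGEN hLAB b r g hg _ _ _ _ (hu 0).1 (hu 1).1
    have s2 : HS (MM b) m (e1 - e2) = dot (ecl g (e1 - e2)) (lam g (u 0)) := by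
      have h1 : HS (MM b) m (e1 - e2) = HS (MM b) m (rep g (ecl g (e1 - e2)) * (1 : ℕ)) := by
        refine HS_cls _ h12 ?_ ?_
        · rw [Nat.cast_one, mul_one]; exact hc.ne _
        · rw [Nat.cast_one, mul_one]; exact c12
      rw [h1, hHS hGEN hLAB b r g hg _ _ _ _ (hu 0).1 (Nat.coprime_one_left _), lam_one,
        dot_zero, dot_zero]
      ring
    have s3 : HS (MM b) n (e2 - e1) = dot (ecl g (e1 - e2) + ecl g (-1)) (lam g (u 1)) := by
      have h1 : HS (MM b) n (e2 - e1) =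
          HS (MM b) n (rep g (ecl g (e1 - e2) + ecl g (-1)) * (1 : ℕ)) := by
        refine HS_cls _ h21 ?_ ?_
        · rw [Nat.cast_one, mul_one]; exact hc.ne _
        · rw [Nat.cast_one, mul_one]; exact c21
      rw [h1, hHS hGEN hLAB b r g hg _ _ _ _ (hu 1).1 (Nat.coprime_one_left _), lam_one,
        dot_zero, dot_zero]
      ring
    rw [s1, s2, s3, (hu 0).2, (hu 1).2] at hsum
    exact hsum
  · rw [hW, inW_iff]
    exact ⟨lk_of hc hlR gR (mul_ne_zero h12 h13) h12 gR.t1 caa c12,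
      fun p _ hp => lk_of hc (hlp p hp) (gp p) (mul_ne_zero h12 h13) h12 (gp p).t1 caa c12⟩
  · rw [hW, inW_iff]
    exact ⟨lk_of hc hlR gR h21 (mul_ne_zero h21 h23) gR.t2 c21 cbb,
      fun p _ hp => lk_of hc (hlp p hp) (gp p) h21 (mul_ne_zero h21 h23) (gp p).t2 c21 cbb⟩

end Pool.Agent.N3.GK.W0
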